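import Pool.Agent.H57.BD.Stmts

/-!
# Module PARTS: all four parts together
-/

set_option autoImplicit false

namespace Pool.BD

namespace PARTS

theorem partDec_mono {I : Type} {N : ℕ} {r : ℕ → ℕ} {T : I → Finset ℕ} {lo hi : I → ℕ} {n m : ℕ}
    (hnm : n ≤ m) (h : PartDec N r T lo hi n) : PartDec N r T lo hi m := by
  obtain ⟨col, α, β, h⟩ := h
  refine ⟨fun c => Fin.castLE hnm (col c),
    fun i a => if hi : i.1 < n then α ⟨i.1, hi⟩ a else 0,
    fun i b => if hi : i.1 < n then β ⟨i.1, hi⟩ b else 0, ?_⟩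
  intro i a b hb h1 h2
  by_cases hi : i.1 < n
  · have hh := h ⟨i.1, hi⟩ a b hb h1 h2
    simp only [hi, dif_pos]
    rw [← hh]
    constructor
    · rintro ⟨c, hc, hcol, h3⟩
      refine ⟨c, hc, ?_, h3⟩
      apply Fin.ext
      have := congrArg Fin.val hcol
      simpa using this
    · rintro ⟨c, hc, hcol, h3⟩
      refine ⟨c, hc, ?_, h3⟩
      apply Fin.ext
      have := congrArg Fin.val hcol
      simpa using this
  · simp only [hi, dif_neg, not_false_iff, lt_irrefl, iff_false]
    rintro ⟨c, hc, hcol, h3⟩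
    have := congrArg Fin.val hcol
    simp only [Fin.val_castLE] at this
    have h4 := (col c).2
    omega

theorem good_restrict {F F' : Finset (Finset ℕ)} (hsub : F ⊆ F') {r : ℕ → ℕ} {N n m : ℕ}
    (hnm : n ≤ m) {T : {S // S ∈ F'} → Finset ℕ} (h : Good F' r N T n) :
    Good F r N (fun a => T ⟨a.1, hsub a.2⟩) m := by
  obtain ⟨lo, hi, h1, h2⟩ := h
  refine ⟨fun a => lo ⟨a.1, hsub a.2⟩, fun a => hi ⟨a.1, hsub a.2⟩, fun a c hc => h1 _ c hc, ?_⟩
  obtain ⟨col, α, β, h3⟩ := partDec_mono hnm h2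
  exact ⟨col, fun i a => α i ⟨a.1, hsub a.2⟩, β, fun i a b hb h4 h5 => h3 i _ b hb h4 h5⟩

end PARTS

open PARTS in
theorem parts (hCOMP : COMPStmt) (hLEV : LEVStmt) (hUPF : UPFStmt) (hLF : LFStmt) (hLFT : LFTStmt)
    (hPZ : PZStmt) (hPM : PMStmt) (hPL : PLStmt) (hPR : PRStmt) : PARTSStmt := by
  intro F r N hF hne hstar hle hnc hN
  obtain ⟨F', hsub, hne', hstar', hun, hcons⟩ := hCOMP F hF hne hstar
  obtain ⟨lev, hlev⟩ := hLEV F' hne' hcons
  have hbase : Base F' lev r N :=
    ⟨hne', hstar', hlev, by rw [hun]; exact hle, by rw [hun]; exact hnc, by rw [hun]; exact hN⟩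
  obtain ⟨hU1, hU2⟩ := hUPF F' lev hne' hstar' hlev
  choose vL vR hLR using fun n => hLF ℕ (upF F' lev n) (hU2 n).1 (hU2 n).2.1
  choose x P s B hB hX hP1 hP2 hs1 hs2 hs3 using
    fun n => hLFT (upF F' lev n) (vL n) (vR n) (hU2 n).1 (hLR n)
  have g0 := hPZ F' lev r N hbase
  have g1 := hPM F' lev r N hbase vL x (fun n S hS => ⟨(hLR n).memL S hS, hX n S hS⟩)
  have g2 := hPL F' lev r N hbase vL vR hLR
  have g3 := hPR F' lev r N hbase x P s B hB (fun n S hS => (hX n S hS).1)
    hP1 hP2 hs1 hs2 hs3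
  have k0 := good_restrict hsub (show 108 ≤ 108 * 108 by norm_num) g0
  have k1 := good_restrict hsub (show 108 ≤ 108 * 108 by norm_num) g1
  have k2 := good_restrict hsub (show 108 ≤ 108 * 108 by norm_num) g2
  have k3 := good_restrict hsub (le_refl (108 * 108)) g3
  obtain ⟨lo0, hi0, h00, h01⟩ := k0
  obtain ⟨lo1, hi1, h10, h11⟩ := k1
  obtain ⟨lo2, hi2, h20, h21⟩ := k2
  obtain ⟨lo3, hi3, h30, h31⟩ := k3
  refine ⟨![fun a => loP lev a.1,
    fun a => (upP lev a.1).filter (fun c => vL (dep lev a.1) (upP lev a.1) ≤ c ∧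
        c ≤ x (dep lev a.1) (upP lev a.1)),
    fun a => (upP lev a.1).filter (fun c => c ≤ vR (dep lev a.1) (upP lev a.1)),
    fun a => (upP lev a.1).filter (fun c => x (dep lev a.1) (upP lev a.1) < c)],
    ![lo0, lo1, lo2, lo3], ![hi0, hi1, hi2, hi3], ?_, ?_, ?_⟩
  rotate_left
  · intro p
    fin_cases p
    · exact h00
    · exact h10
    · exact h20
    · exact h30
  · intro p
    fin_cases p
    · exact h01
    · exact h11
    · exact h21
    · exact h31
  · intro S c
    have hS' := hsub S.2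
    constructor
    · intro hc
      have hc' := hc
      rw [(hU1 S.1 hS').1, Finset.mem_union] at hc'
      rcases hc' with hc' | hc'
      · exact ⟨0, hc'⟩
      · have hmem : upP lev S.1 ∈ upF F' lev (dep lev S.1) := by
          unfold upF
          rw [Finset.mem_filter, Finset.mem_image]
          exact ⟨⟨S.1, by rw [Finset.mem_filter]; exact ⟨hS', rfl⟩, rfl⟩, ⟨c, hc'⟩⟩
        by_cases h1 : c ≤ vR (dep lev S.1) (upP lev S.1)
        · refine ⟨2, ?_⟩
          show c ∈ Finset.filter _ _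
          rw [Finset.mem_filter]
          exact ⟨hc', h1⟩
        · have h2 : vL (dep lev S.1) (upP lev S.1) ≤ c := by
            by_contra h3
            exact h1 ((hLR _).lr _ hmem c hc' (not_le.mp h3))
          by_cases h3 : c ≤ x (dep lev S.1) (upP lev S.1)
          · refine ⟨1, ?_⟩
            show c ∈ Finset.filter _ _
            rw [Finset.mem_filter]
            exact ⟨hc', h2, h3⟩
          · refine ⟨3, ?_⟩
            show c ∈ Finset.filter _ _
            rw [Finset.mem_filter]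
            exact ⟨hc', not_le.mp h3⟩
    · rintro ⟨p, hp⟩
      have hup : c ∈ upP lev S.1 → c ∈ S.1 := fun h => (Finset.mem_filter.mp h).1
      fin_cases p
      · exact (Finset.mem_filter.mp hp).1
      · exact hup (Finset.mem_filter.mp hp).1
      · exact hup (Finset.mem_filter.mp hp).1
      · exact hup (Finset.mem_filter.mp hp).1

end Pool.BD
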